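import Pool.Agent.H195R3.Surj

/-!
# Restrained structures do not satisfy the dimension inequality for definable maps

An expansion of the real field which is restrained (even: every definable countable set of real
numbers is finite) and in which the line, a `D_Sigma` set of dimension one, is mapped onto every
finite power of the line by a definable map.
-/

namespace Pool.Agent.Results.MP_ec0437_lc.NoDimensionInequality

open FirstOrder

section defs

variable (K : Type) [Field K] [LinearOrder K] [IsStrictOrderedRing K] [TopologicalSpace K]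
  [OrderTopology K] (L : FirstOrder.Language.{0, 0}) [L.Structure K]

/-- Definability with parameters from `K`. -/
def Def {α : Type} (X : Set (α → K)) : Prop := (Set.univ : Set K).Definable L X

/-- The structure is an expansion of the ordered field `K`. -/
def ExpandsOrderedField : Prop :=
  Def K L {v : Fin 3 → K | v 0 + v 1 = v 2} ∧ Def K L {v : Fin 3 → K | v 0 * v 1 = v 2} ∧
    Def K L {v : Fin 2 → K | v 0 ≤ v 1}

/-- Definable completeness: every nonempty definable set which is bounded above has a least
upper bound. -/
def DefinablyComplete : Prop :=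
  ∀ X : Set K, Def K L {v : Fin 1 → K | v 0 ∈ X} → X.Nonempty → BddAbove X → ∃ s : K, IsLUB X s

/-- The graph of the restriction to `C` of the map `g` is definable. -/
def DefinableMapOn {m n : ℕ} (C : Set (Fin m → K)) (g : (Fin m → K) → (Fin n → K)) : Prop :=
  Def K L {v : Fin m ⊕ Fin n → K | (v ∘ Sum.inl) ∈ C ∧ g (v ∘ Sum.inl) = v ∘ Sum.inr}

/-- Restrained: definable images in `K` of definable discrete sets are nowhere dense. -/
def Restrained : Prop :=
  ∀ (n : ℕ) (D : Set (Fin n → K)) (g : (Fin n → K) → (Fin 1 → K)), Def K L D →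
    DiscreteTopology D → DefinableMapOn K L D g → IsNowhereDense ((fun x => g x 0) '' D)

/-- `D_Sigma` sets: projections of definable closed sets. -/
def DSigma {m : ℕ} (X : Set (Fin m → K)) : Prop :=
  ∃ Y : Set (Fin (m + 1) → K), Def K L Y ∧ IsClosed Y ∧
    X = (fun (z : Fin (m + 1) → K) (j : Fin m) => z (Fin.castSucc j)) '' Y

open Classical in
/-- The topological dimension: the largest number of coordinates such that the projection to
them has nonempty interior; it is `⊥` for the empty set. -/
noncomputable def topDim {m : ℕ} (X : Set (Fin m → K)) : WithBot ℕ :=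
  (Finset.univ.filter fun S : Finset (Fin m) =>
    (interior ((fun (x : Fin m → K) (i : S) => x i) '' X)).Nonempty).sup
      fun S => ((S.card : ℕ) : WithBot ℕ)

end defs

lemma topDim_univ (m : ℕ) : topDim ℝ (Set.univ : Set (Fin m → ℝ)) = (m : WithBot ℕ) := by
  classical
  have h : ∀ S : Finset (Fin m),
      (fun (x : Fin m → ℝ) (i : S) => x i) '' (Set.univ : Set (Fin m → ℝ)) = Set.univ := by
    intro S
    refine Set.eq_univ_of_forall fun y => ⟨fun j => if h : j ∈ S then y ⟨j, h⟩ else 0, trivial, ?_⟩
    funext i
    simp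
  unfold topDim
  refine le_antisymm (Finset.sup_le fun S _ => ?_) ?_
  · have := Finset.card_le_univ S
    rw [Fintype.card_fin] at this
    exact WithBot.coe_le_coe.2 this
  · have h1 : (Finset.univ : Finset (Fin m)) ∈ Finset.univ.filter fun S : Finset (Fin m) =>
        (interior ((fun (x : Fin m → ℝ) (i : S) => x i) '' (Set.univ : Set (Fin m → ℝ)))).Nonempty := by
      rw [Finset.mem_filter]
      refine ⟨Finset.mem_univ _, ?_⟩
      rw [h, interior_univ]
      exact Set.univ_nonempty
    have h2 := Finset.le_sup (f := fun S : Finset (Fin m) => ((S.card : ℕ) : WithBot ℕ)) h1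
    rw [Finset.card_univ, Fintype.card_fin] at h2
    exact h2

/-- There is a definably complete restrained expansion of the real field such that, for every `n`,
a definable map sends the real line (a `D_Sigma` set of dimension `1`) onto `ℝ ^ n`, a set of
dimension `n`.  So definable maps may raise the dimension of `D_Sigma` sets in restrained
structures, and do so in an expansion of the real field. -/
theorem result :
    ∃ (L : FirstOrder.Language.{0, 0}) (_ : L.Structure ℝ),
      ExpandsOrderedField ℝ L ∧ DefinablyComplete ℝ L ∧ Restrained ℝ L ∧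
      DSigma ℝ L (Set.univ : Set (Fin 1 → ℝ)) ∧ topDim ℝ (Set.univ : Set (Fin 1 → ℝ)) = 1 ∧
      ∀ n : ℕ, ∃ g : (Fin 1 → ℝ) → (Fin n → ℝ), DefinableMapOn ℝ L Set.univ g ∧
        g '' Set.univ = Set.univ ∧ topDim ℝ (g '' Set.univ) = n := by
  obtain ⟨f, hf⟩ := Pool.Agent.H195R3.exists_generic
  let _ := Pool.Agent.H195R3.str f
  refine ⟨Pool.Agent.H195R3.Lf, Pool.Agent.H195R3.str f,
    ⟨Pool.Agent.H195R3.def_add f 0 1 2, Pool.Agent.H195R3.def_mul f 0 1 2,
      Pool.Agent.H195R3.def_le f 0 1⟩, fun X _ h1 h2 => Real.exists_isLUB h1 h2, ?_, ?_,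
    topDim_univ 1, ?_⟩
  · intro n D g hDdef hD hg
    refine Pool.Agent.H195R3.finite_nowhereDense
      (Pool.Agent.H195R3.restrained hf n D (fun x => g x 0) hD ?_)
    have h1 := Set.Definable.preimage_comp
      (Sum.elim (fun i : Fin n => Fin.castSucc i) (fun _ : Fin 1 => Fin.last n)) hg
    refine (congrArg (fun s => @Set.Definable ℝ (Set.univ : Set ℝ) Pool.Agent.H195R3.Lf
      (Pool.Agent.H195R3.str f) (Fin (n + 1)) s) ?_).mp h1
    ext v
    simp only [Set.mem_preimage, Set.mem_ofPred_eq]
    constructor
    · rintro ⟨h1, h2⟩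
      exact ⟨h1, congrFun h2 0⟩
    · rintro ⟨h1, h2⟩
      refine ⟨h1, ?_⟩
      funext i
      have : i = 0 := Subsingleton.elim _ _
      subst this
      exact h2
  · refine ⟨Set.univ, Set.definable_univ, isClosed_univ, ?_⟩
    symm
    refine Set.eq_univ_of_forall fun x => ⟨Fin.snoc x 0, trivial, ?_⟩
    funext j
    simp
  · intro n
    let g : (Fin 1 → ℝ) → (Fin n → ℝ) := fun x i => f (x 0 + (i : ℕ))
    have hsurj : g '' Set.univ = Set.univ := by
      refine Set.eq_univ_of_forall fun y => ?_
      obtain ⟨x, hx⟩ := Pool.Agent.H195R3.gen_surj_all hf n y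
      exact ⟨fun _ => x, trivial, funext hx⟩
    refine ⟨g, ?_, hsurj, ?_⟩
    · refine (congrArg (fun s => @Set.Definable ℝ (Set.univ : Set ℝ) Pool.Agent.H195R3.Lf
        (Pool.Agent.H195R3.str f) (Fin 1 ⊕ Fin n) s) ?_).mp
        (Pool.Agent.H195R3.def_graph_all f n)
      ext v
      simp only [Set.mem_ofPred_eq]
      constructor
      · intro h
        exact ⟨trivial, funext h⟩
      · rintro ⟨-, h⟩ i
        exact congrFun h i
    · rw [hsurj]
      exact topDim_univ n

end Pool.Agent.Results.MP_ec0437_lc.NoDimensionInequality
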